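import Pool.Agent.Lib.MP_786be7_an.Ins.Sep
import Pool.Agent.Lib.MP_786be7_an.Ins.Coef

set_option autoImplicit false
open scoped ENNReal

universe u v w

/-- Let `X` be a real Banach space of density at most the continuum with an unconditional basis
`e` (index set of any size; every vector has exactly one unconditionally convergent expansion).
No smooth norm is assumed. Then every normed space `Y` that embeds isomorphically and linearly in
`X` (for instance `Y = X`, `T = id`, or a closed subspace) has a Lipschitz homeomorphism onto a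
subset of `ℓ_∞` all of whose coordinates are `C^∞` (in the Fréchet sense), in particular
Gateaux differentiable everywhere. -/
theorem Pool.Agent.Results.MP_786be7_an.SmoothCoordinates.result
    {X : Type u} [NormedAddCommGroup X] [NormedSpace ℝ X] [CompleteSpace X]
    {Γ : Type v} (e : Γ → X)
    (hbasis : ∀ x : X, ∃! a : Γ → ℝ, HasSum (fun γ => a γ • e γ) x)
    (hdens : ∃ D : Set X, Dense D ∧ Cardinal.mk ↥D ≤ Cardinal.continuum)
    (Y : Type w) [NormedAddCommGroup Y] [NormedSpace ℝ Y] (T : Y →L[ℝ] X)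
    (hT : ∃ c : ℝ, 0 < c ∧ ∀ y : Y, c * ‖y‖ ≤ ‖T y‖) :
    ∃ (φ : Y → lp (fun _ : ℕ => ℝ) ∞) (K L : NNReal),
      LipschitzWith K φ ∧ AntilipschitzWith L φ ∧
      (∀ j : ℕ, ContDiff ℝ (⊤ : ℕ∞) (fun y => φ y j)) ∧
      ∀ (j : ℕ) (y : Y), ∃ g : Y →L[ℝ] ℝ, ∀ h : Y,
        HasDerivAt (fun t : ℝ => φ (y + t • h) j) (g h) 0 := by
  obtain ⟨D, hD, hDc⟩ := hdens
  obtain ⟨e', f, hn, h1, h0, hs⟩ := Pool.Agent.MP_786be7_an.Ins.exists_normalised e hbasis
  obtain ⟨φ, K, L, hK, hL, hφ⟩ := Pool.Agent.MP_786be7_an.Ins.embed e' f hn h1 h0 hs D hD hDc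
  obtain ⟨c, hc, hTc⟩ := hT
  have hTa : AntilipschitzWith ⟨c⁻¹, by positivity⟩ T := by
    apply AntilipschitzWith.of_le_mul_dist
    intro x y
    rw [dist_eq_norm, dist_eq_norm, ← map_sub]
    show ‖x - y‖ ≤ c⁻¹ * ‖T (x - y)‖
    rw [inv_mul_eq_div, le_div_iff₀ hc, mul_comm]
    exact hTc _
  have hcd : ∀ j : ℕ, ContDiff ℝ (⊤ : ℕ∞) (fun y => φ (T y) j) :=
    fun j => (hφ j).comp T.contDiff
  refine ⟨fun y => φ (T y), _, _, hK.comp T.lipschitz, hL.comp hTa, hcd, fun j y => ?_⟩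
  have hd : HasFDerivAt (fun y => φ (T y) j) (fderiv ℝ (fun y => φ (T y) j) y) y :=
    ((hcd j).differentiable (by simp) y).hasFDerivAt
  refine ⟨fderiv ℝ (fun y => φ (T y) j) y, fun h => ?_⟩
  have h2 : HasDerivAt (fun t : ℝ => y + t • h) h 0 := by
    simpa using ((hasDerivAt_id (0:ℝ)).smul_const h).const_add y
  have h3 : y + (0:ℝ) • h = y := by simp
  have hd' : HasFDerivAt (fun y => φ (T y) j) (fderiv ℝ (fun y => φ (T y) j) y)
      (y + (0:ℝ) • h) := by rw [h3]; exact hd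
  exact hd'.comp_hasDerivAt (0:ℝ) h2
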